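import Mathlib
import Pool.Agent.H251R2.Cops.Quotient

set_option autoImplicit false
open N6ef48c04

namespace Pool.Agent.Results.MP_964892_co.CayleyModNormal

/-- The undirected Cayley graph of `Γ` with connection set `S`. -/
def cayley {Γ : Type*} [Group Γ] (S : Set Γ) : SimpleGraph Γ where
  Adj x y := x ≠ y ∧ (x⁻¹ * y ∈ S ∨ y⁻¹ * x ∈ S)
  symm := ⟨fun _ _ h => ⟨h.1.symm, h.2.symm⟩⟩
  loopless := ⟨fun _ h => h.1 rfl⟩

/-- Let `N` be a normal subgroup of the finite group `Γ` such that the connection set `S` is closed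
under conjugation modulo `N`. If the Cayley graph of `Γ` with connection set `S` is connected, its
cop number is at most `|N| (2 ⌊√|Γ/N|⌋ + 1)`. -/
theorem result {Γ : Type*} [Group Γ] [Finite Γ] (S : Set Γ) (N : Subgroup Γ) [N.Normal]
    (hS : ∀ s ∈ S, ∀ g : Γ, ∃ n ∈ N, g * s * g⁻¹ * n ∈ S) (hconn : (cayley S).Connected) :
    copNumber (cayley S) ≤ Nat.card N * (2 * Nat.sqrt (Nat.card (Γ ⧸ N)) + 1) := by
  have := Fintype.ofFinite Γ
  exact Pool.Agent.H251R2.Cops.cayley_quotient_bound S N hS hconn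

end Pool.Agent.Results.MP_964892_co.CayleyModNormal
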