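import Mathlib
import Pool.Agent.H251R2.Cops.ShiftBound

set_option autoImplicit false
open N6ef48c04

namespace Pool.Agent.Results.MP_964892_co.ShiftingAutomorphisms

/-- Let `G` be a finite connected graph such that every edge `x y` is realised by an automorphism
`φ`, `φ x = y`, which moves every vertex to itself or to one of its neighbours. Then the cop number
of `G` is at most `2 ⌊√n⌋ + 1`. -/
theorem result {V : Type*} [Fintype V] (G : SimpleGraph V) (hG : G.Connected)
    (h : ∀ x y, G.Adj x y → ∃ φ : G ≃g G, φ x = y ∧ ∀ v, φ v = v ∨ G.Adj v (φ v)) :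
    copNumber G ≤ 2 * Nat.sqrt (Fintype.card V) + 1 :=
  Pool.Agent.H251R2.Cops.copNumber_le_of_shift G hG h

end Pool.Agent.Results.MP_964892_co.ShiftingAutomorphisms
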