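import Mathlib
import Pool.Prelude.Def_F_8db9d53c
import Pool.Agent.H594R2.Mey2.Graph

set_option autoImplicit false
open N6ef48c04

namespace Pool.Agent.Results.MP_964892_co.SqrtLog

/-- Meyniel's conjecture up to one factor `log n`: every connected graph on `n` vertices has cop
number at most `81 √n (log n + 1)`. -/
theorem result (V : Type) [Fintype V] (G : SimpleGraph V) (hG : G.Connected) :
    (copNumber G : ℝ) ≤ 81 * Real.sqrt (Fintype.card V) * (Real.log (Fintype.card V) + 1) :=
  Pool.Agent.H594R2.Mey2.graph_bound G hG

end Pool.Agent.Results.MP_964892_co.SqrtLog
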